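import Pool.Agent.Lib.MP_29b1bb_gt.LP.Pos
import Pool.Agent.Lib.MP_29b1bb_gt.SC.Poly

/-!
# Comparison of a body with the simplex, up to a polynomial factor, in every dimension

For every `d ≥ 1` and every compact `K ⊆ ℝ^d` with nonempty interior the mean volume of a random
simplex in `K` is less than `√(13 C(d+13,13)) (L_K / L_S)^d` times the one in a simplex `S` of the
same volume; here `L` is the isotropic constant, and `L_S^d = d! / √((d+1)^(d+1) (d+2)^d)`. Hence
Sylvester's simplex inequality holds, strictly, for all `K` with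
`√(13 C(d+13,13)) (L_K / L_S)^d ≤ 1`.
-/

set_option autoImplicit false

open MeasureTheory Set

namespace Pool.Agent.Results.MP_29b1bb_gt.CovarianceCriterion

/-- The expected volume of the convex hull of `d + 1` independent uniform points of `K`: the
integral over `K ^ (d + 1)` of the volume of the convex hull of the `d + 1` points, divided by
the power `d + 1` of the volume of `K`. -/
noncomputable def meanVol (d : ℕ) (K : Set (EuclideanSpace ℝ (Fin d))) : ℝ :=
  (∫ x in Set.pi Set.univ (fun _ : Fin (d + 1) => K),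
    (volume (convexHull ℝ (Set.range x))).toReal) / (volume K).toReal ^ (d + 1)

/-- `S` is a `d`-dimensional simplex: the convex hull of `d + 1` affinely independent points. -/
def IsSimplex (d : ℕ) (S : Set (EuclideanSpace ℝ (Fin d))) : Prop :=
  ∃ r : Fin (d + 1) → EuclideanSpace ℝ (Fin d),
    AffineIndependent ℝ r ∧ S = convexHull ℝ (Set.range r)

/-- The covariance matrix of a uniform random point of `K`. -/
noncomputable def cov (d : ℕ) (K : Set (EuclideanSpace ℝ (Fin d))) : Matrix (Fin d) (Fin d) ℝ :=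
  Matrix.of fun i j => (⨍ x in K, x i * x j) - (⨍ x in K, x i) * (⨍ x in K, x j)

/-- The isotropic constant `L_K = (det cov K)^(1/(2d)) / |K|^(1/d)`. -/
noncomputable def isoConst (d : ℕ) (K : Set (EuclideanSpace ℝ (Fin d))) : ℝ :=
  (Real.sqrt (cov d K).det / (volume K).toReal) ^ (1 / (d : ℝ))

theorem isoConst_pow {d : ℕ} (hd : 0 < d) (K : Set (EuclideanSpace ℝ (Fin d))) :
    isoConst d K ^ d = Real.sqrt (cov d K).det / (volume K).toReal := by
  unfold isoConst
  have h0 : 0 ≤ Real.sqrt (cov d K).det / (volume K).toReal :=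
    div_nonneg (Real.sqrt_nonneg _) ENNReal.toReal_nonneg
  rw [← Real.rpow_natCast, ← Real.rpow_mul h0]
  have h1 : (1 / (d : ℝ)) * (d : ℝ) = 1 := by
    have : (d : ℝ) ≠ 0 := by exact_mod_cast hd.ne'
    field_simp
  rw [h1, Real.rpow_one]

theorem meanVol_nonneg (d : ℕ) (S : Set (EuclideanSpace ℝ (Fin d))) : 0 ≤ meanVol d S :=
  div_nonneg (integral_nonneg fun _ => ENNReal.toReal_nonneg)
    (pow_nonneg ENNReal.toReal_nonneg _)

/-- The isotropic constant of a simplex. -/
theorem isoConst_simplex {d : ℕ} (hd : 0 < d) (S : Set (EuclideanSpace ℝ (Fin d)))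
    (hS : IsSimplex d S) : isoConst d S ^ d =
      (d.factorial : ℝ) / Real.sqrt (((d : ℝ) + 1) ^ (d + 1) * ((d : ℝ) + 2) ^ d) := by
  obtain ⟨r, hr, rfl⟩ := hS
  have hV := Pool.Agent.Lib.MP_29b1bb_gt.volume_simplex_ne r hr
  have hv : 0 < (volume (convexHull ℝ (Set.range r))).toReal := ENNReal.toReal_pos hV.1 hV.2
  have h := Pool.Agent.Lib.MP_29b1bb_gt.scCov_simplex hd r hr
  change (cov d (convexHull ℝ (Set.range r))).det * _ = _ at h
  rw [isoConst_pow hd]
  have hE : (0 : ℝ) < ((d : ℝ) + 1) ^ (d + 1) * ((d : ℝ) + 2) ^ d := by positivity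
  have h2 : (cov d (convexHull ℝ (Set.range r))).det =
      ((d.factorial : ℝ) * (volume (convexHull ℝ (Set.range r))).toReal) ^ 2 /
        (((d : ℝ) + 1) ^ (d + 1) * ((d : ℝ) + 2) ^ d) := by
    rw [eq_div_iff hE.ne']
    exact h
  rw [h2, Real.sqrt_div (sq_nonneg _), Real.sqrt_sq (by positivity)]
  field_simp

/-- **Theorem.** Let `d ≥ 1`, `K ⊆ ℝ^d` compact with nonempty interior and `S` a `d`-simplex with
`|S| = |K|`. Then `E V_d(K,d+1) < √(13 C(d+13,13)) (L_K / L_S)^d E V_d(S,d+1)`. -/
theorem result (d : ℕ) (hd : 1 ≤ d) (K S : Set (EuclideanSpace ℝ (Fin d)))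
    (hK : IsCompact K) (hi : (interior K).Nonempty) (hS : IsSimplex d S)
    (hv : volume K = volume S) :
    meanVol d K < Real.sqrt (13 * ((d + 13).choose 13 : ℝ)) *
      (isoConst d K / isoConst d S) ^ d * meanVol d S := by
  have hisopos : 0 < isoConst d S ^ d := by
    rw [isoConst_simplex hd S hS]
    have hf : 0 < (d.factorial : ℝ) := by exact_mod_cast d.factorial_pos
    positivity
  obtain ⟨r, hr, rfl⟩ := hS
  have hvpos : 0 < (volume K).toReal :=
    ENNReal.toReal_pos (Measure.measure_pos_of_nonempty_interior _ hi).ne'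
      hK.measure_lt_top.ne
  have h := Pool.Agent.Lib.MP_29b1bb_gt.sc_poly hd K r hK hi hr hv
    (Pool.Agent.Lib.MP_29b1bb_gt.LP.scMean_pos hK hi)
  change meanVol d K * Real.sqrt (cov d (convexHull ℝ (Set.range r))).det <
    Real.sqrt (13 * ((d + 13).choose 13 : ℝ)) * Real.sqrt (cov d K).det *
      meanVol d (convexHull ℝ (Set.range r)) at h
  have h1 : Real.sqrt (cov d (convexHull ℝ (Set.range r))).det =
      isoConst d (convexHull ℝ (Set.range r)) ^ d * (volume K).toReal := by
    rw [isoConst_pow hd, ← hv, div_mul_cancel₀ _ hvpos.ne']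
  have h2 : Real.sqrt (cov d K).det = isoConst d K ^ d * (volume K).toReal := by
    rw [isoConst_pow hd, div_mul_cancel₀ _ hvpos.ne']
  rw [h1, h2] at h
  generalize Real.sqrt (13 * ((d + 13).choose 13 : ℝ)) = P at h ⊢
  have h3 : meanVol d K * isoConst d (convexHull ℝ (Set.range r)) ^ d <
      P * isoConst d K ^ d * meanVol d (convexHull ℝ (Set.range r)) := by
    refine lt_of_mul_lt_mul_right ?_ hvpos.le
    calc meanVol d K * isoConst d (convexHull ℝ (Set.range r)) ^ d * (volume K).toReal
        = meanVol d K *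
          (isoConst d (convexHull ℝ (Set.range r)) ^ d * (volume K).toReal) := by ring
      _ < _ := h
      _ = _ := by ring
  rw [← lt_div_iff₀ hisopos] at h3
  refine h3.trans_le (le_of_eq ?_)
  rw [div_pow]
  ring

/-- Corollary: Sylvester's simplex inequality holds, strictly, if
`√(13 C(d+13,13)) (L_K / L_S)^d ≤ 1`. -/
theorem simplex_inequality (d : ℕ) (hd : 1 ≤ d) (K S : Set (EuclideanSpace ℝ (Fin d)))
    (hK : IsCompact K) (hi : (interior K).Nonempty) (hS : IsSimplex d S)
    (hv : volume K = volume S)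
    (hL : Real.sqrt (13 * ((d + 13).choose 13 : ℝ)) * (isoConst d K / isoConst d S) ^ d ≤ 1) :
    meanVol d K < meanVol d S :=
  (result d hd K S hK hi hS hv).trans_le (mul_le_of_le_one_left (meanVol_nonneg d S) hL)

end Pool.Agent.Results.MP_29b1bb_gt.CovarianceCriterion
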