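import Pool.Agent.Lib.MP_29b1bb_gt.Main

/-!
# Simplices are strict local maximizers of the mean volume of a random simplex

For every dimension `d ≥ 2` the simplex inequality of Sylvester's problem holds for all convex
bodies which are contained in a simplex of only slightly larger volume. The deficit is bounded
below by a multiple of the volume which has to be added to obtain a smallest circumscribed
simplex; in particular equality holds for simplices only.
-/

set_option autoImplicit false

open MeasureTheory Set

namespace Pool.Agent.Results.MP_29b1bb_gt.LocalMaximality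

/-- The expected volume of the convex hull of `d + 1` independent uniform points of `K`: the
integral over `K ^ (d + 1)` of the volume of the convex hull of the `d + 1` points, divided by
the power `d + 1` of the volume of `K`. -/
noncomputable def meanVol (d : ℕ) (K : Set (EuclideanSpace ℝ (Fin d))) : ℝ :=
  (∫ x in Set.pi Set.univ (fun _ : Fin (d + 1) => K),
    (volume (convexHull ℝ (Set.range x))).toReal) / (volume K).toReal ^ (d + 1)

/-- `S` is a `d`-dimensional simplex: the convex hull of `d + 1` affinely independent points. -/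
def IsSimplex (d : ℕ) (S : Set (EuclideanSpace ℝ (Fin d))) : Prop :=
  ∃ r : Fin (d + 1) → EuclideanSpace ℝ (Fin d),
    AffineIndependent ℝ r ∧ S = convexHull ℝ (Set.range r)

/-- Simplices are strict local maximizers, with stability, in every dimension `d ≥ 2`. -/
theorem result (d : ℕ) (hd : 2 ≤ d) : ∃ δ c : ℝ, 0 < δ ∧ 0 < c ∧
    ∀ K S Q : Set (EuclideanSpace ℝ (Fin d)),
      IsCompact K → Convex ℝ K → (interior K).Nonempty →
      IsSimplex d S → volume K = volume S →
      IsSimplex d Q → K ⊆ Q → volume Q ≤ ENNReal.ofReal (1 + δ) * volume K →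
      meanVol d K ≤ meanVol d S ∧ (meanVol d K = meanVol d S → IsSimplex d K) ∧
      ∃ T, IsSimplex d T ∧ K ⊆ T ∧ (∀ T', IsSimplex d T' → K ⊆ T' → volume T ≤ volume T') ∧
        meanVol d K + c * ((volume T).toReal - (volume K).toReal) ≤ meanVol d S := by
  obtain ⟨δ, c, hδ, hc, h⟩ := Pool.Agent.Lib.MP_29b1bb_gt.local_max d hd
  refine ⟨δ, c, hδ, hc, ?_⟩
  rintro K _ _ hK hcv hi ⟨p, hp, rfl⟩ hvol ⟨q, hq, rfl⟩ hsub hclose
  obtain ⟨r, hr, hsubr, hmin, hle, heq⟩ := h K p q hK hcv hi hp hvol hq hsub hclose
  have hfin : volume (convexHull ℝ (Set.range r)) ≠ ⊤ :=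
    ((Set.finite_range r).isCompact_convexHull (𝕜 := ℝ)).measure_lt_top.ne
  have hmono : volume K ≤ volume (convexHull ℝ (Set.range r)) := measure_mono hsubr
  have hge : (volume K).toReal ≤ (volume (convexHull ℝ (Set.range r))).toReal :=
    ENNReal.toReal_mono hfin hmono
  have hnn : 0 ≤ c * ((volume (convexHull ℝ (Set.range r))).toReal - (volume K).toReal) :=
    mul_nonneg hc.le (sub_nonneg.2 hge)
  have hle' : meanVol d K +
      c * ((volume (convexHull ℝ (Set.range r))).toReal - (volume K).toReal) ≤
        meanVol d (convexHull ℝ (Set.range p)) := hle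
  refine ⟨by linarith, ?_, convexHull ℝ (Set.range r), ⟨r, hr, rfl⟩, hsubr, ?_, hle'⟩
  · intro he
    refine ⟨r, hr, heq ?_⟩
    have h0 : c * ((volume (convexHull ℝ (Set.range r))).toReal - (volume K).toReal) ≤ 0 := by
      linarith
    have h1 : (volume (convexHull ℝ (Set.range r))).toReal - (volume K).toReal ≤ 0 := by
      by_contra hcon
      push Not at hcon
      exact absurd h0 (not_le.2 (mul_pos hc hcon))
    have h2 : (volume (convexHull ℝ (Set.range r))).toReal = (volume K).toReal := by linarith
    exact (ENNReal.toReal_eq_toReal_iff' hfin hK.measure_lt_top.ne).1 h2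
  · rintro _ ⟨q', hq', rfl⟩ hsubq'
    exact hmin q' hq' hsubq'

end Pool.Agent.Results.MP_29b1bb_gt.LocalMaximality
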