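import Pool.Agent.Lib.MP_29b1bb_gt.LP.Pos

/-!
# The simplex inequality in high dimension for unit balls of subspaces of `L_p`

For every `b < 1`, every large `d` and every `K ⊆ ℝ^d` which is contained in a translate of the
unit ball `L` of a `d`-dimensional subspace of `L_p(ν)`, `|L| ≤ c^d |K|` (and which is convex and
symmetric about the centre if `p < 2`), the mean volume of a random simplex in `K` is less than
`(c κ_p γ_p / (b √(2π/e)))^d` times the one in a simplex of the same volume. Hence Sylvester's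
simplex inequality holds, strictly, if `c κ_p γ_p ≤ b √(2π/e)`. Corollaries: `1 ≤ p ≤ 5` and
`c = 26/25`; bodies contained in an ellipsoid of volume at most `(38/25)^d |K|`.
-/

set_option autoImplicit false

open MeasureTheory Set

namespace Pool.Agent.Results.MP_29b1bb_gt.SubspacesOfLp

/-- The expected volume of the convex hull of `d + 1` independent uniform points of `K`: the
integral over `K ^ (d + 1)` of the volume of the convex hull of the `d + 1` points, divided by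
the power `d + 1` of the volume of `K`. -/
noncomputable def meanVol (d : ℕ) (K : Set (EuclideanSpace ℝ (Fin d))) : ℝ :=
  (∫ x in Set.pi Set.univ (fun _ : Fin (d + 1) => K),
    (volume (convexHull ℝ (Set.range x))).toReal) / (volume K).toReal ^ (d + 1)

/-- `S` is a `d`-dimensional simplex: the convex hull of `d + 1` affinely independent points. -/
def IsSimplex (d : ℕ) (S : Set (EuclideanSpace ℝ (Fin d))) : Prop :=
  ∃ r : Fin (d + 1) → EuclideanSpace ℝ (Fin d),
    AffineIndependent ℝ r ∧ S = convexHull ℝ (Set.range r)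

/-- The unit ball `{x : ∫ |∑ x_i f_i|^p dν ≤ 1}` of the span of `f_1, …, f_d` in `L_p(ν)`, in the
coordinates `x`. -/
def lpBall {Ω : Type*} [MeasurableSpace Ω] (ν : Measure Ω) (p : ℝ) {d : ℕ} (f : Fin d → Ω → ℝ) :
    Set (EuclideanSpace ℝ (Fin d)) :=
  {x | ∫ ω, |∑ i, x i * f i ω| ^ p ∂ν ≤ 1}

/-- `K` fits in `L_p` with constant `c`: up to a translation `K` is contained in the unit ball
`L = lpBall ν p f` of a subspace of `L_p(ν)`, where `|L| ≤ c^d |K|`; if `p < 2`, moreover, `K` is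
convex and symmetric about the centre `z`. -/
def FitsLp (d : ℕ) (K : Set (EuclideanSpace ℝ (Fin d))) (p c : ℝ) : Prop :=
  ∃ (Ω : Type) (_ : MeasurableSpace Ω) (ν : Measure Ω) (f : Fin d → Ω → ℝ)
    (z : EuclideanSpace ℝ (Fin d)), SigmaFinite ν ∧
    (∀ i, MemLp (f i) (ENNReal.ofReal p) ν) ∧
    (∀ x ∈ K, x - z ∈ lpBall ν p f) ∧
    (p < 2 → Convex ℝ K ∧ ∀ x ∈ K, (2 : ℝ) • z - x ∈ K) ∧
    volume (lpBall ν p f) ≤ ENNReal.ofReal (c ^ d) * volume K

/-- `K` is a compact set with nonempty interior and `S` is a simplex of the same volume. -/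
def Pair (d : ℕ) (K S : Set (EuclideanSpace ℝ (Fin d))) : Prop :=
  IsCompact K ∧ (interior K).Nonempty ∧ IsSimplex d S ∧ volume K = volume S

/-- The norm `γ_p = (E |g|^p)^(1/p)` in `L_p` of a standard normal random variable `g`. -/
noncomputable def gaussNorm (p : ℝ) : ℝ :=
  (∫ x, |x| ^ p ∂(ProbabilityTheory.gaussianReal 0 1)) ^ (1 / p)

/-- The constant `κ_p`: `√2` for `p < 2` and `1` for `p ≥ 2`. -/
noncomputable def kappa (p : ℝ) : ℝ := if p < 2 then Real.sqrt 2 else 1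

theorem gap_lp (b : ℝ) (hb : 0 < b) (hb1 : b < 1) : ∃ d₀ : ℕ, ∀ d : ℕ, d₀ ≤ d →
    ∀ (Ω : Type) [MeasurableSpace Ω] (ν : Measure Ω) [SigmaFinite ν] (p c : ℝ)
      (f : Fin d → Ω → ℝ) (z : EuclideanSpace ℝ (Fin d)) (K S : Set (EuclideanSpace ℝ (Fin d))),
      IsCompact K → (interior K).Nonempty → IsSimplex d S → volume K = volume S →
      1 ≤ p → (∀ i, MemLp (f i) (ENNReal.ofReal p) ν) →
      (∀ x ∈ K, x - z ∈ lpBall ν p f) →
      (p < 2 → Convex ℝ K ∧ ∀ x ∈ K, (2 : ℝ) • z - x ∈ K) →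
      0 ≤ c → volume (lpBall ν p f) ≤ ENNReal.ofReal (c ^ d) * volume K →
      b ^ d * meanVol d K ≤
        (c * (kappa p * gaussNorm p) / Real.sqrt (2 * Real.pi / Real.exp 1)) ^ d *
          meanVol d S := by
  obtain ⟨d₀, h₀⟩ := Pool.Agent.Lib.MP_29b1bb_gt.LP.lp_gap b hb hb1
  refine ⟨d₀, fun d hd Ω _ ν _ p c f z K S hK hi hS hv hp hf hsub hsym hc hL => ?_⟩
  obtain ⟨r, hr, rfl⟩ := hS
  exact h₀ d hd Ω ν p c f K z r hp hf hK hi hsub hsym hc hL hr hv

/-- **Theorem.** For every `b < 1` and all large `d`: if `K` fits in `L_p` with constant `c`,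
`p ≥ 1`, and `S` is a simplex with `|S| = |K|` then
`E V_d(K,d+1) < (c κ_p γ_p / (b √(2π/e)))^d E V_d(S,d+1)`. -/
theorem result (b : ℝ) (hb : 0 < b) (hb1 : b < 1) : ∃ d₀ : ℕ, ∀ d : ℕ, d₀ ≤ d →
    ∀ K S : Set (EuclideanSpace ℝ (Fin d)), Pair d K S →
      ∀ p c : ℝ, 1 ≤ p → 0 ≤ c → FitsLp d K p c →
        meanVol d K <
          (c * (kappa p * gaussNorm p) / (b * Real.sqrt (2 * Real.pi / Real.exp 1))) ^ d *
            meanVol d S := by
  obtain ⟨d₀, h₀⟩ := gap_lp ((b + 1) / 2) (by linarith) (by linarith)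
  refine ⟨max 1 d₀, fun d hd K S hKS p c hp hc hfit => ?_⟩
  obtain ⟨hK, hi, hS, hv⟩ := hKS
  obtain ⟨Ω, _, ν, f, z, hν, hf, hsub, hsym, hL⟩ := hfit
  have h := h₀ d (by omega) Ω ν p c f z K S hK hi hS hv hp hf hsub hsym hc hL
  have h2 := Pool.Agent.Lib.MP_29b1bb_gt.LP.strict_of_gap (by omega : 0 < d) hb (by linarith)
    (Pool.Agent.Lib.MP_29b1bb_gt.LP.scMean_pos hK hi) h
  rw [div_div, mul_comm _ b] at h2
  exact h2

theorem meanVol_nonneg (d : ℕ) (S : Set (EuclideanSpace ℝ (Fin d))) : 0 ≤ meanVol d S :=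
  div_nonneg (integral_nonneg fun _ => ENNReal.toReal_nonneg)
    (pow_nonneg ENNReal.toReal_nonneg _)

/-- Corollary: the strict inequality if `c κ_p γ_p ≤ b √(2π/e)`. -/
theorem simplex_inequality (b : ℝ) (hb : 0 < b) (hb1 : b < 1) : ∃ d₀ : ℕ, ∀ d : ℕ, d₀ ≤ d →
    ∀ K S : Set (EuclideanSpace ℝ (Fin d)), Pair d K S →
      ∀ p c : ℝ, 1 ≤ p → 0 ≤ c → FitsLp d K p c →
        c * (kappa p * gaussNorm p) ≤ b * Real.sqrt (2 * Real.pi / Real.exp 1) →
          meanVol d K < meanVol d S := by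
  obtain ⟨d₀, h₀⟩ := result b hb hb1
  refine ⟨d₀, fun d hd K S hKS p c hp hc hfit hle => ?_⟩
  have hs0 : 0 < Real.sqrt (2 * Real.pi / Real.exp 1) := Real.sqrt_pos.mpr (by positivity)
  have hg0 : 0 ≤ gaussNorm p := Real.rpow_nonneg
    (Pool.Agent.Lib.MP_29b1bb_gt.LP.gm_pos (by linarith : 0 < p)).le _
  have hk0 : 0 ≤ kappa p := by
    unfold kappa
    split_ifs
    · exact Real.sqrt_nonneg 2
    · exact zero_le_one
  refine lt_of_lt_of_le (h₀ d hd K S hKS p c hp hc hfit)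
    (mul_le_of_le_one_left (meanVol_nonneg d S) (pow_le_one₀ (by positivity) ?_))
  rwa [div_le_one (by positivity)]

/-- `(38/25) / √(2π/e) < b` for some `b < 1`. -/
theorem exists_b : ∃ b : ℝ, 0 < b ∧ b < 1 ∧
    (38 / 25) < b * Real.sqrt (2 * Real.pi / Real.exp 1) := by
  have hroot := Pool.Agent.Lib.MP_29b1bb_gt.LP.num_root
  set s := Real.sqrt (2 * Real.pi / Real.exp 1) with hs
  have hs0 : 0 < s := lt_trans (by norm_num) hroot
  have hlt : (38 / 25) / s < 1 := (div_lt_one hs0).2 hroot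
  have hpos : 0 < (38 / 25) / s := by positivity
  refine ⟨((38 / 25) / s + 1) / 2, by linarith, by linarith, ?_⟩
  rw [← div_lt_iff₀ hs0]
  linarith

/-- Corollary: `1 ≤ p ≤ 5` and `c = 26/25`. -/
theorem simplex_inequality_lp : ∃ d₀ : ℕ, ∀ d : ℕ, d₀ ≤ d →
    ∀ K S : Set (EuclideanSpace ℝ (Fin d)), Pair d K S →
      ∀ p : ℝ, 1 ≤ p → p ≤ 5 → FitsLp d K p (26 / 25) → meanVol d K < meanVol d S := by
  obtain ⟨b, hb0, hb1, hb⟩ := exists_b
  obtain ⟨d₀, h₀⟩ := simplex_inequality b hb0 hb1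
  refine ⟨d₀, fun d hd K S hKS p hp hp5 hfit => ?_⟩
  refine h₀ d hd K S hKS p (26 / 25) hp (by norm_num) hfit (le_trans ?_ hb.le)
  by_cases hp2 : p < 2
  · have h1 : gaussNorm p ≤ 1 :=
      Pool.Agent.Lib.MP_29b1bb_gt.LP.gm_le_two (by linarith) hp2.le
    have h2 : kappa p = Real.sqrt 2 := if_pos hp2
    have h3 := Pool.Agent.Lib.MP_29b1bb_gt.LP.num_sqrt_two
    rw [h2]
    have h4 : Real.sqrt 2 * gaussNorm p ≤ Real.sqrt 2 * 1 :=
      mul_le_mul_of_nonneg_left h1 (Real.sqrt_nonneg 2)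
    linarith
  · have h1 : gaussNorm p ≤ 29 / 20 :=
      Pool.Agent.Lib.MP_29b1bb_gt.LP.gm_le_five (by linarith) hp5
    have h2 : kappa p = 1 := if_neg hp2
    rw [h2]
    linarith

/-- `E` is a `d`-dimensional ellipsoid: the image of the closed unit ball under an invertible
affine map. -/
def IsEllipsoid (d : ℕ) (E : Set (EuclideanSpace ℝ (Fin d))) : Prop :=
  ∃ (T : EuclideanSpace ℝ (Fin d) ≃ₗ[ℝ] EuclideanSpace ℝ (Fin d)) (z : EuclideanSpace ℝ (Fin d)),
    E = (fun x => T x + z) '' Metric.closedBall 0 1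

theorem lpBall_ellipsoid {d : ℕ}
    (T : EuclideanSpace ℝ (Fin d) ≃ₗ[ℝ] EuclideanSpace ℝ (Fin d)) :
    lpBall (Measure.count : Measure (Fin d)) 2
      (fun i k => T.symm (EuclideanSpace.single i 1) k) = T '' Metric.closedBall 0 1 := by
  have hlin : ∀ (x : EuclideanSpace ℝ (Fin d)) (k : Fin d),
      ∑ i, x i * T.symm (EuclideanSpace.single i 1) k = T.symm x k := by
    intro x k
    have hx : x = ∑ i, x i • EuclideanSpace.single i (1 : ℝ) := by
      have h := (EuclideanSpace.basisFun (Fin d) ℝ).sum_repr x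
      simp only [EuclideanSpace.basisFun_repr, EuclideanSpace.basisFun_apply] at h
      exact h.symm
    conv_rhs => rw [hx]
    rw [map_sum]
    simp only [map_smul, PiLp.smul_apply, WithLp.ofLp_sum, Finset.sum_apply, smul_eq_mul]
  have hnorm : ∀ x : EuclideanSpace ℝ (Fin d),
      ∫ k, |∑ i, x i * T.symm (EuclideanSpace.single i 1) k| ^ (2 : ℝ)
        ∂(Measure.count : Measure (Fin d)) = ‖T.symm x‖ ^ 2 := by
    intro x
    rw [integral_fintype Integrable.of_finite]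
    simp only [hlin, Measure.real, Measure.count_singleton, ENNReal.toReal_one, one_smul]
    rw [EuclideanSpace.norm_sq_eq]
    refine Finset.sum_congr rfl fun k _ => ?_
    rw [Real.rpow_two, Real.norm_eq_abs]
  ext x
  simp only [lpBall, Set.mem_ofPred_eq, hnorm, mem_image, mem_closedBall_zero_iff]
  constructor
  · intro h
    refine ⟨T.symm x, ?_, T.apply_symm_apply x⟩
    have := (sq_le_one_iff_abs_le_one (‖T.symm x‖)).1 h
    rwa [abs_norm] at this
  · rintro ⟨y, hy, rfl⟩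
    rw [T.symm_apply_apply]
    exact pow_le_one₀ (norm_nonneg y) hy

/-- Corollary: bodies contained in an ellipsoid `E` with `|E| ≤ (38/25)^d |K|`. -/
theorem simplex_inequality_ellipsoid : ∃ d₀ : ℕ, ∀ d : ℕ, d₀ ≤ d →
    ∀ K S : Set (EuclideanSpace ℝ (Fin d)), Pair d K S →
      ∀ E : Set (EuclideanSpace ℝ (Fin d)), IsEllipsoid d E → K ⊆ E →
        volume E ≤ ENNReal.ofReal ((38 / 25) ^ d) * volume K → meanVol d K < meanVol d S := by
  obtain ⟨b, hb0, hb1, hb⟩ := exists_b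
  obtain ⟨d₀, h₀⟩ := simplex_inequality b hb0 hb1
  refine ⟨d₀, fun d hd K S hKS E hE hsub hL => ?_⟩
  obtain ⟨T, z, rfl⟩ := hE
  have hE : (fun x => T x + z) '' Metric.closedBall (0 : EuclideanSpace ℝ (Fin d)) 1 =
      (fun y => y + z) '' (T '' Metric.closedBall 0 1) := by
    rw [← image_comp]
    rfl
  rw [hE, image_add_right, measure_preimage_add_right, ← lpBall_ellipsoid T] at hL
  have hsub' : ∀ x ∈ K, x - z ∈ lpBall (Measure.count : Measure (Fin d)) 2
      (fun i k => T.symm (EuclideanSpace.single i 1) k) := by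
    intro x hx
    rw [lpBall_ellipsoid]
    obtain ⟨y, hy, hyx⟩ := hsub hx
    refine ⟨y, hy, ?_⟩
    rw [← hyx]
    simp
  have hfit : FitsLp d K 2 (38 / 25) :=
    ⟨Fin d, inferInstance, Measure.count, fun i k => T.symm (EuclideanSpace.single i 1) k, z,
      inferInstance, fun i => MemLp.of_discrete, hsub', fun h => absurd h (lt_irrefl 2), hL⟩
  have h1 : kappa 2 = 1 := if_neg (lt_irrefl 2)
  have h2 : gaussNorm 2 = 1 := by
    have h3 : gaussNorm 2 = Pool.Agent.Lib.MP_29b1bb_gt.LP.gm 2 ^ (1 / (2 : ℝ)) := rfl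
    rw [h3, Pool.Agent.Lib.MP_29b1bb_gt.LP.gm_two, Real.one_rpow]
  refine h₀ d hd K S hKS 2 (38 / 25) (by norm_num) (by norm_num) hfit ?_
  rw [h1, h2, mul_one, mul_one]
  exact hb.le

end Pool.Agent.Results.MP_29b1bb_gt.SubspacesOfLp
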