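import Pool.Agent.Lib.MP_29b1bb_gt.SU.Fin

/-!
# The simplex inequality for unconditional bodies in high dimension

The simplex inequality of Sylvester's problem holds in high dimension `d` for all unconditional
convex bodies `K` which are 2-convex, or symmetric in blocks of at least 128 coordinates, or
generalized Orlicz balls (more generally: the intersection of a coordinate box with at most
`d / 1000000` generalized Orlicz balls).
-/

set_option autoImplicit false

open MeasureTheory Set

namespace Pool.Agent.Results.MP_29b1bb_gt.UnconditionalClasses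

/-- The expected volume of the convex hull of `d + 1` independent uniform points of `K`: the
integral over `K ^ (d + 1)` of the volume of the convex hull of the `d + 1` points, divided by
the power `d + 1` of the volume of `K`. -/
noncomputable def meanVol (d : ℕ) (K : Set (EuclideanSpace ℝ (Fin d))) : ℝ :=
  (∫ x in Set.pi Set.univ (fun _ : Fin (d + 1) => K),
    (volume (convexHull ℝ (Set.range x))).toReal) / (volume K).toReal ^ (d + 1)

/-- `S` is a `d`-dimensional simplex: the convex hull of `d + 1` affinely independent points. -/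
def IsSimplex (d : ℕ) (S : Set (EuclideanSpace ℝ (Fin d))) : Prop :=
  ∃ r : Fin (d + 1) → EuclideanSpace ℝ (Fin d),
    AffineIndependent ℝ r ∧ S = convexHull ℝ (Set.range r)

/-- `K` is unconditional: closed under all changes of signs of the coordinates. -/
def Unconditional {d : ℕ} (K : Set (EuclideanSpace ℝ (Fin d))) : Prop :=
  ∀ x ∈ K, ∀ s : Fin d → ℝ, (∀ i, s i = 1 ∨ s i = -1) →
    (WithLp.toLp 2 (fun i => s i * x i) : EuclideanSpace ℝ (Fin d)) ∈ K

/-- `K` is 2-convex: the set of the vectors `(xᵢ²)`, `x ∈ K`, is convex (for an unconditional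
`K`). -/
def TwoConvex {d : ℕ} (K : Set (EuclideanSpace ℝ (Fin d))) : Prop :=
  ∀ x ∈ K, ∀ y ∈ K, ∀ l ∈ Icc (0 : ℝ) 1,
    (WithLp.toLp 2 (fun i => Real.sqrt ((1 - l) * x i ^ 2 + l * y i ^ 2)) :
      EuclideanSpace ℝ (Fin d)) ∈ K

/-- `K` is invariant under all permutations of the coordinates which preserve the blocks (the
fibres of `c`). -/
def BlockSymmetric {d : ℕ} (c : Fin d → ℕ) (K : Set (EuclideanSpace ℝ (Fin d))) : Prop :=
  ∀ σ : Equiv.Perm (Fin d), (∀ i, c (σ i) = c i) → ∀ x ∈ K,
    (WithLp.toLp 2 (fun i => x (σ i)) : EuclideanSpace ℝ (Fin d)) ∈ K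

/-- `K` is the intersection of a coordinate box with at most `d / 1000000` generalized Orlicz
balls. -/
def FewOrliczBalls {d : ℕ} (K : Set (EuclideanSpace ℝ (Fin d))) : Prop :=
  ∃ (m : ℕ) (a : Fin d → ℝ) (f : Fin m → Fin d → ℝ → ℝ), 1000000 * m ≤ d ∧ (∀ i, 0 < a i) ∧
    (∀ k i, ConvexOn ℝ (Ici 0) (f k i) ∧ MonotoneOn (f k i) (Ici 0) ∧ f k i 0 = 0) ∧
    K = {x | (∀ i, |x i| ≤ a i) ∧ ∀ k, ∑ i, f k i |x i| ≤ 1}

/-- The simplex inequality in high dimension for unconditional convex bodies which are 2-convex,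
or symmetric in blocks of at least 128 coordinates, or intersections of few generalized Orlicz
balls. -/
theorem result : ∃ d₀ : ℕ, ∀ d : ℕ, d₀ ≤ d → ∀ K S : Set (EuclideanSpace ℝ (Fin d)),
    IsCompact K → Convex ℝ K → (interior K).Nonempty → Unconditional K →
    (TwoConvex K ∨ FewOrliczBalls K ∨
      ∃ c : Fin d → ℕ, (∀ i, 128 ≤ Nat.card {j // c j = c i}) ∧ BlockSymmetric c K) →
    IsSimplex d S → volume K = volume S → meanVol d K ≤ meanVol d S := by
  obtain ⟨d₁, h₁⟩ := Pool.Agent.Lib.MP_29b1bb_gt.SU.two_convex_final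
  obtain ⟨d₂, h₂⟩ := Pool.Agent.Lib.MP_29b1bb_gt.SU.symmetric_final (ι := ℕ)
  obtain ⟨d₃, h₃⟩ := Pool.Agent.Lib.MP_29b1bb_gt.SU.orlicz_final
  refine ⟨max (max d₁ d₂) d₃, fun d hd K S hK hc hi hu hor hS hvol => ?_⟩
  have hd' := (le_max_left _ _).trans hd
  obtain ⟨p, hp, rfl⟩ := hS
  rcases hor with h | ⟨m, a, f, hm, ha, hf, hKeq⟩ | ⟨c, hcard, hsym⟩
  · exact h₁ d ((le_max_left _ _).trans hd') K p hK hc hi hu h hp hvol
  · have hm' : (m : ℝ) ≤ (1 / 1000000) * d := by
      have h1 : ((1000000 * m : ℕ) : ℝ) ≤ (d : ℝ) := by exact_mod_cast hm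
      push_cast at h1
      linarith
    exact h₃ d ((le_max_right _ _).trans hd) m hm' ⟨a, f, ha, fun k i => (hf k i).1,
      fun k i => (hf k i).2.1, fun k i => (hf k i).2.2⟩ K p hKeq hp hvol
  · refine h₂ d ((le_max_right _ _).trans hd') c K p hK hc hi hu hsym (fun i => ?_) hp hvol
    refine (hcard i).trans (le_of_eq ?_)
    exact Nat.subtype_card _ fun j => by simp [Pool.Agent.Lib.MP_29b1bb_gt.SU.blk]

end Pool.Agent.Results.MP_29b1bb_gt.UnconditionalClasses
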